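import Pool.Agent.N999.ORB.Once
import Pool.Agent.N680.TH.Arith
import Pool.Agent.H98R3.OM.A1

/-! # Twists `b y ^ ℓ = g (a x ^ m)` in which `a` and `b` move: the exceptional set is pronull -/

set_option autoImplicit false

open Polynomial MeasureTheory Filter Topology

namespace Pool.Agent.N53.KM

open Pool.Agent.N24.RW Pool.Agent.N680.TH Pool.Agent.N999.ORB

/-- subsets of pronull sets -/
theorem pronull_mono' {ι : Type} [Fintype ι] {A B : Set (ι → ℤ)} (hAB : A ⊆ B) (hB : ProNull B) :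
    ProNull A := by
  intro M hM ε hε
  obtain ⟨q, hq, hqM, h⟩ := hB M hM ε hε
  refine ⟨q, hq, hqM, le_trans ?_ h⟩
  have : NeZero q := ⟨hq.ne'⟩
  exact_mod_cast Set.ncard_le_ncard (Set.image_mono hAB) (Set.toFinite _)

/-- vectors with two coordinates in given sets -/
lemma card_coord2 {ι : Type} [Fintype ι] [DecidableEq ι] {R : Type} [Fintype R] {l l' : ι}
    (hl : l ≠ l') (S T : Set R) :
    S.ncard * T.ncard * Fintype.card R ^ (Fintype.card ι - 2) ≤
      {x : ι → R | x l ∈ S ∧ x l' ∈ T}.ncard := by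
  classical
  have e : {x : ι → R | x l ∈ S ∧ x l' ∈ T} = ↑(Fintype.piFinset fun i : ι =>
      if i = l then S.toFinset else if i = l' then T.toFinset else (Finset.univ : Finset R)) := by
    ext x
    rw [Finset.mem_coe, Fintype.mem_piFinset]
    constructor
    · intro h i
      by_cases hi : i = l
      · rw [if_pos hi, hi, Set.mem_toFinset]
        exact h.1
      · rw [if_neg hi]
        by_cases hi' : i = l'
        · rw [if_pos hi', hi', Set.mem_toFinset]
          exact h.2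
        · rw [if_neg hi']
          exact Finset.mem_univ _
    · intro h
      have h1 := h l
      have h2 := h l'
      rw [if_pos rfl, Set.mem_toFinset] at h1
      rw [if_neg hl.symm, if_pos rfl, Set.mem_toFinset] at h2
      exact ⟨h1, h2⟩
  have hl' : l' ∈ (Finset.univ : Finset ι).erase l := Finset.mem_erase.2 ⟨hl.symm, Finset.mem_univ _⟩
  rw [e, Set.ncard_coe_finset, Fintype.card_piFinset, ← Finset.mul_prod_erase _ _ (Finset.mem_univ l),
    if_pos rfl, ← Finset.mul_prod_erase _ _ hl', if_neg hl.symm, if_pos rfl,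
    Set.ncard_eq_toFinset_card', Set.ncard_eq_toFinset_card', mul_assoc]
  refine Nat.mul_le_mul_left _ (Nat.mul_le_mul_left _ (le_of_eq ?_))
  rw [Finset.prod_congr rfl fun i hi => by
      rw [if_neg (Finset.ne_of_mem_erase (Finset.mem_of_mem_erase hi)),
        if_neg (Finset.ne_of_mem_erase hi)],
    Finset.prod_const, Finset.card_erase_of_mem hl', Finset.card_erase_of_mem (Finset.mem_univ l),
    Finset.card_univ, Finset.card_univ]
  rfl

/-- the residues modulo `p` which are good for the second coordinate -/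
def Tp (ℓ p : ℕ) (s t : ZMod p) : Set (ZMod p) :=
  {x | x ≠ 0 ∧ (s * x ^ (ℓ - 1)) ^ ((p - 1) / ℓ) ≠ 1 ∧ (t * x ^ (ℓ - 1)) ^ ((p - 1) / ℓ) ≠ 1}

/-- number of solutions of a binomial equation -/
lemma card_root {p : ℕ} [Fact p.Prime] {k : ℕ} (hk : 0 < k) (z : ZMod p) :
    {x : ZMod p | x ^ k = z}.ncard ≤ k := by
  classical
  have h1 : {x : ZMod p | x ^ k = z} ⊆ ↑(nthRoots k z).toFinset := by
    intro x hx
    rw [Finset.mem_coe, Multiset.mem_toFinset, mem_nthRoots hk]
    exact hx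
  refine (Set.ncard_le_ncard h1 (Finset.finite_toSet _)).trans ?_
  rw [Set.ncard_coe_finset]
  exact (Multiset.toFinset_card_le _).trans (card_nthRoots k z)

/-- the power residue symbol of `s x ^ (ℓ - 1)` -/
lemma symbol {p ℓ : ℕ} [Fact p.Prime] (hℓ : 0 < ℓ) (hd : ℓ ∣ p - 1) {s x : ZMod p} (hx : x ≠ 0) :
    (s * x ^ (ℓ - 1)) ^ ((p - 1) / ℓ) = 1 ↔ x ^ ((p - 1) / ℓ) = s ^ ((p - 1) / ℓ) := by
  obtain ⟨k, hk⟩ := hd
  have hk' : (p - 1) / ℓ = k := by rw [hk]; exact Nat.mul_div_cancel_left k hℓ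
  rw [hk', mul_pow, ← pow_mul]
  have h1 : x ^ ((ℓ - 1) * k) * x ^ k = 1 := by
    rw [← pow_add]
    have : (ℓ - 1) * k + k = p - 1 := by
      rw [hk]
      obtain ⟨m, rfl⟩ : ∃ m, ℓ = m + 1 := ⟨ℓ - 1, by omega⟩
      rw [Nat.add_sub_cancel]
      ring
    rw [this]
    exact ZMod.pow_card_sub_one_eq_one hx
  have hxk : x ^ k ≠ 0 := pow_ne_zero _ hx
  constructor
  · intro h
    calc x ^ k = (s ^ k * x ^ ((ℓ - 1) * k)) * x ^ k := by rw [h, one_mul]
      _ = s ^ k * (x ^ ((ℓ - 1) * k) * x ^ k) := by ring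
      _ = s ^ k := by rw [h1, mul_one]
  · intro h
    rw [← h, mul_comm]
    exact h1

/-- at least a third of the residues is good -/
lemma card_Tp {p ℓ : ℕ} [hp : Fact p.Prime] (hℓ : ℓ.Prime) (hd : ℓ ∣ p - 1) {s t : ZMod p}
    (h2 : ℓ = 2 → s ^ ((p - 1) / 2) = t ^ ((p - 1) / 2)) :
    p - 1 ≤ 3 * (Tp ℓ p s t).ncard := by
  classical
  obtain ⟨k, hk⟩ := hd
  have hk' : (p - 1) / ℓ = k := by rw [hk]; exact Nat.mul_div_cancel_left k hℓ.pos
  have hp1 := hp.out.two_le
  have hkpos : 0 < k := by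
    rcases Nat.eq_zero_or_pos k with h | h
    · rw [h, mul_zero] at hk
      omega
    · exact h
  set A : Set (ZMod p) := {x | x ^ k = s ^ k} with hA
  set B : Set (ZMod p) := {x | x ^ k = t ^ k} with hB
  have hcov : (Set.univ : Set (ZMod p)) ⊆ Tp ℓ p s t ∪ ({0} ∪ (A ∪ B)) := by
    intro x _
    by_cases hx : x = 0
    · right; left; exact hx
    · by_cases h3 : (s * x ^ (ℓ - 1)) ^ ((p - 1) / ℓ) = 1
      · right; right; left
        have := (symbol hℓ.pos ⟨k, hk⟩ hx).1 h3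
        rwa [hk'] at this
      · by_cases h4 : (t * x ^ (ℓ - 1)) ^ ((p - 1) / ℓ) = 1
        · right; right; right
          have := (symbol hℓ.pos ⟨k, hk⟩ hx).1 h4
          rwa [hk'] at this
        · left; exact ⟨hx, h3, h4⟩
  have h5 : p ≤ (Tp ℓ p s t).ncard + (1 + (A ∪ B).ncard) := by
    have h6 := Set.ncard_le_ncard hcov (Set.toFinite _)
    rw [Set.ncard_univ, Nat.card_zmod] at h6
    refine h6.trans ((Set.ncard_union_le _ _).trans (Nat.add_le_add_left ?_ _))
    refine (Set.ncard_union_le _ _).trans ?_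
    rw [Set.ncard_singleton]
  have hAk : A.ncard ≤ k := card_root hkpos _
  have hBk : B.ncard ≤ k := card_root hkpos _
  rcases hℓ.eq_two_or_odd with h | h
  · have h7 := h2 h
    have h8 : (p - 1) / 2 = k := by rw [← h]; exact hk'
    rw [h8] at h7
    have h9 : A ∪ B = A := by
      rw [hA, hB, h7, Set.union_self]
    rw [h9] at h5
    rw [h] at hk
    omega
  · have h3 : 3 ≤ ℓ := by
      have := hℓ.two_le
      omega
    have h9 : (A ∪ B).ncard ≤ k + k := (Set.ncard_union_le _ _).trans (by omega)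
    have h10 : 3 * k ≤ ℓ * k := Nat.mul_le_mul_right _ h3
    omega

/-- preimage in the residues modulo `p ^ 2` -/
lemma card_lift {p : ℕ} (hp : p.Prime) (T : Set (ZMod p)) :
    p * T.ncard ≤ {x : ZMod (p ^ 2) | (ZMod.castHom (dvd_pow_self p two_ne_zero) (ZMod p)) x ∈ T}.ncard := by
  classical
  have : NeZero (p ^ 2) := ⟨pow_ne_zero 2 hp.ne_zero⟩
  have : NeZero p := ⟨hp.ne_zero⟩
  set π := ZMod.castHom (dvd_pow_self p two_ne_zero) (ZMod p) with hπ
  -- the map `(r, t) ↦ t + p r`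
  let F : ℕ × ZMod p → ZMod (p ^ 2) := fun q => ((q.2.val + p * q.1 : ℕ) : ZMod (p ^ 2))
  set D : Finset (ℕ × ZMod p) := Finset.range p ×ˢ T.toFinset with hD
  have h1 : (D.image F).card = p * T.ncard := by
    rw [Finset.card_image_of_injOn, hD, Finset.card_product, Finset.card_range,
      Set.ncard_eq_toFinset_card']
    intro a ha b hb hab
    have ha' := (Finset.mem_product.1 (Finset.mem_coe.1 ha)).1
    have hb' := (Finset.mem_product.1 (Finset.mem_coe.1 hb)).1
    rw [Finset.mem_range] at ha' hb'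
    have hab' : ((a.2.val + p * a.1 : ℕ) : ZMod (p ^ 2)) = ((b.2.val + p * b.1 : ℕ) : ZMod (p ^ 2)) :=
      hab
    rw [ZMod.natCast_eq_natCast_iff'] at hab'
    have va := ZMod.val_lt a.2
    have vb := ZMod.val_lt b.2
    have l1 : a.2.val + p * a.1 < p ^ 2 := by nlinarith
    have l2 : b.2.val + p * b.1 < p ^ 2 := by nlinarith
    rw [Nat.mod_eq_of_lt l1, Nat.mod_eq_of_lt l2] at hab'
    have e1 : a.2.val = b.2.val := by
      have := congrArg (fun n => n % p) hab'
      simp only [Nat.add_mul_mod_self_left, Nat.mod_eq_of_lt va, Nat.mod_eq_of_lt vb] at this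
      exact this
    have e2 : a.1 = b.1 := by
      rw [e1] at hab'
      exact Nat.eq_of_mul_eq_mul_left hp.pos (Nat.add_left_cancel hab')
    exact Prod.ext e2 (ZMod.val_injective p e1)
  rw [← h1, ← Set.ncard_coe_finset]
  refine Set.ncard_le_ncard ?_ (Set.toFinite _)
  intro x hx
  obtain ⟨q, hq, rfl⟩ := Finset.mem_image.1 (Finset.mem_coe.1 hx)
  have hq' := (Finset.mem_product.1 hq).2
  rw [Set.mem_toFinset] at hq'
  have : π (F q) = q.2 := by
    show π ((q.2.val + p * q.1 : ℕ) : ZMod (p ^ 2)) = q.2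
    rw [map_natCast]
    push_cast
    rw [ZMod.natCast_self, zero_mul, add_zero, ZMod.natCast_zmod_val]
  show π (F q) ∈ T
  rw [this]
  exact hq'

/-- quadratic reciprocity: `D` is a square modulo the primes `p ≡ 1` modulo `4 D` -/
lemma legendre_one {p : ℕ} [hp : Fact p.Prime] (D : ℤ) (h : p % (4 * D.natAbs) = 1 % (4 * D.natAbs))
    (hodd : Odd p) : legendreSym p D = 1 := by
  have h1 := jacobiSym.mod_right D hodd
  rw [h] at h1
  have h2 := jacobiSym.mod_right D odd_one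
  rw [← h2, jacobiSym.one_right] at h1
  rwa [← jacobiSym.legendreSym.to_jacobiSym] at h1

/-- the facts on the primes `p ≡ 1` modulo `4 ℓ s t N` -/
lemma prime_facts {ℓ p : ℕ} (hp : p.Prime) {s t N : ℤ} (hℓ : ℓ.Prime) (hs : s ≠ 0) (ht : t ≠ 0)
    (h : 4 * ℓ * (s * t * N).natAbs ∣ p - 1) :
    ¬ (p : ℤ) ∣ ℓ ∧ ¬ (p : ℤ) ∣ s ∧ ¬ (p : ℤ) ∣ t ∧ ¬ (p : ℤ) ∣ N ∧ ℓ ∣ p - 1 ∧
      (s : ZMod p) ≠ 0 ∧ (t : ZMod p) ≠ 0 ∧
      ((s : ZMod p) ^ ((p - 1) / 2) = (t : ZMod p) ^ ((p - 1) / 2)) := by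
  have hpf : Fact p.Prime := ⟨hp⟩
  have hp2 := hp.two_le
  have key : ∀ n : ℤ, n.natAbs ∣ 4 * ℓ * (s * t * N).natAbs → ¬ (p : ℤ) ∣ n := by
    intro n hn hpn
    have h1 : p ∣ p - 1 := ((Int.natCast_dvd.1 hpn).trans hn).trans h
    have h2 := Nat.le_of_dvd (by omega) h1
    omega
  have ks : ¬ (p : ℤ) ∣ s := key s (by
    rw [Int.natAbs_mul, Int.natAbs_mul]
    exact ((dvd_mul_right _ _).mul_right _).mul_left _)
  have kt : ¬ (p : ℤ) ∣ t := key t (by
    rw [Int.natAbs_mul, Int.natAbs_mul]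
    exact ((dvd_mul_left _ _).mul_right _).mul_left _)
  have hs0 : (s : ZMod p) ≠ 0 := by
    rw [Ne, ZMod.intCast_zmod_eq_zero_iff_dvd]
    exact ks
  have ht0 : (t : ZMod p) ≠ 0 := by
    rw [Ne, ZMod.intCast_zmod_eq_zero_iff_dvd]
    exact kt
  refine ⟨key ℓ (by rw [Int.natAbs_natCast]; exact ((dvd_mul_left _ _).mul_right _)), ks, kt,
    key N (by rw [Int.natAbs_mul]; exact (dvd_mul_left _ _).mul_left _),
    (((dvd_mul_left _ _).mul_right _).trans h), hs0, ht0, ?_⟩
  have h4 : 4 ∣ p - 1 := ((dvd_mul_right 4 ℓ).mul_right _).trans h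
  have hodd : Odd p := by
    rcases hp.eq_two_or_odd' with h5 | h5
    · rw [h5] at h4
      omega
    · exact h5
  have h6 : 4 * (s * t).natAbs ∣ p - 1 := by
    refine dvd_trans ?_ h
    rw [Int.natAbs_mul (s * t) N, mul_assoc 4 ℓ]
    exact Nat.mul_dvd_mul_left 4 ((dvd_mul_right _ _).mul_left _)
  have h7 : p % (4 * (s * t).natAbs) = 1 % (4 * (s * t).natAbs) := by
    have h8 : 1 ≡ p [MOD 4 * (s * t).natAbs] := (Nat.modEq_iff_dvd' hp.one_le).2 h6
    exact h8.symm
  have h9 := legendre_one (p := p) (s * t) h7 hodd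
  have h10 := legendreSym.eq_pow p (s * t)
  rw [h9] at h10
  have hk : p / 2 = (p - 1) / 2 := by
    obtain ⟨r, hr⟩ := hodd
    omega
  rw [hk] at h10
  push_cast at h10
  rw [mul_pow] at h10
  have h11 : (t : ZMod p) ^ ((p - 1) / 2) * (t : ZMod p) ^ ((p - 1) / 2) = 1 := by
    rw [← pow_add]
    have : (p - 1) / 2 + (p - 1) / 2 = p - 1 := by
      obtain ⟨r, hr⟩ := hodd
      omega
    rw [this]
    exact ZMod.pow_card_sub_one_eq_one ht0
  calc (s : ZMod p) ^ ((p - 1) / 2)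
      = ((s : ZMod p) ^ ((p - 1) / 2) * (t : ZMod p) ^ ((p - 1) / 2)) *
        (t : ZMod p) ^ ((p - 1) / 2) := by rw [mul_assoc, h11, mul_one]
    _ = (t : ZMod p) ^ ((p - 1) / 2) := by rw [← h10, one_mul]

/-- Outside a pronull set there is a prime which divides the coordinate `l` exactly once and for which
`s b ^ (ℓ - 1)` and `t b ^ (ℓ - 1)` are no `ℓ`-th powers, where `b` is the coordinate `l'`. -/
theorem pronull_two (hC : S_CRIT) {ι : Type} [Fintype ι] [DecidableEq ι] {l l' : ι} (hl : l ≠ l')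
    {ℓ : ℕ} (hℓ : ℓ.Prime) (s t N : ℤ) (hs : s ≠ 0) (ht : t ≠ 0) (hN : N ≠ 0) :
    ProNull {c : ι → ℤ | ¬ ∃ p : ℕ, p.Prime ∧ ¬ (p : ℤ) ∣ ℓ ∧ ¬ (p : ℤ) ∣ s ∧ ¬ (p : ℤ) ∣ t ∧
      ¬ (p : ℤ) ∣ N ∧ ¬ (p : ℤ) ∣ c l' ∧ NR ℓ (s * c l' ^ (ℓ - 1)) p ∧
      NR ℓ (t * c l' ^ (ℓ - 1)) p ∧ (p : ℤ) ∣ c l ∧ ¬ (p : ℤ) ^ 2 ∣ c l} := by
  classical
  set M : ℕ := 4 * ℓ * (s * t * N).natAbs with hM
  have hM0 : M ≠ 0 := by
    rw [hM]
    exact mul_ne_zero (mul_ne_zero (by norm_num) hℓ.ne_zero)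
      (Int.natAbs_ne_zero.2 (mul_ne_zero (mul_ne_zero hs ht) hN))
  have hMz : NeZero M := ⟨hM0⟩
  have hdvd : ∀ p : ℕ, p.Prime → (p : ZMod M) = 1 → M ∣ p - 1 := by
    intro p hp h1
    have h2 : ((p - 1 : ℕ) : ZMod M) = 0 := by
      rw [Nat.cast_sub hp.one_le, h1, Nat.cast_one, sub_self]
    exact (ZMod.natCast_eq_zero_iff _ _).1 h2
  have h := hC ι (fun p => p ^ 2) (fun p hp => Nat.one_le_iff_ne_zero.2 (pow_ne_zero 2 hp.ne_zero))
    (fun p p' hp hp' hne => Nat.Coprime.pow 2 2 ((Nat.coprime_primes hp hp').2 hne))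
    (fun p => if (p : ZMod M) = 1 then
      {x | x l ∈ Sp p ∧ x l' ∈ {y | (ZMod.castHom (dvd_pow_self p two_ne_zero) (ZMod p)) y ∈
        Tp ℓ p s t}} else ∅) 0
    (fun p => if (p : ZMod M) = 1 then 1 / 12 * ((1 : ℝ) / p) else 0) (fun p => by
      split_ifs
      · positivity
      · exact le_rfl) (fun hsum => by
      apply Pool.Agent.H98R3.OM.not_summable_class (q := M) (a := 1) isUnit_one
      have h1 := hsum.mul_left 12
      refine h1.congr fun n => ?_
      by_cases hn : n.Prime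
      · by_cases hn1 : (n : ZMod M) = 1
        · rw [if_pos hn, if_pos hn1, if_pos ⟨hn, hn1⟩]
          ring
        · rw [if_pos hn, if_neg hn1, if_neg fun h => hn1 h.2]
          ring
      · rw [if_neg hn, if_neg fun h => hn h.1]
        ring) (fun p hp _ => by
      by_cases hn : (p : ZMod M) = 1
      · simp only [if_pos hn]
        have hpf : Fact p.Prime := ⟨hp⟩
        have hz : NeZero (p ^ 2) := ⟨pow_ne_zero 2 hp.ne_zero⟩
        obtain ⟨-, -, -, -, hd, hs0, ht0, hst⟩ := prime_facts hp hℓ hs ht (hdvd p hp hn)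
        have h2 := card_coord2 (R := ZMod (p ^ 2)) hl (Sp p)
          {y | (ZMod.castHom (dvd_pow_self p two_ne_zero) (ZMod p)) y ∈ Tp ℓ p s t}
        rw [ZMod.card] at h2
        have h3 := card_Sp hp
        have h4 := card_lift hp (Tp ℓ p s t)
        have h5 := card_Tp (s := s) (t := t) hℓ hd (fun _ => hst)
        set S1 := (Sp p).ncard
        set T1 := (Tp ℓ p (s : ZMod p) (t : ZMod p)).ncard
        set T2 := {y : ZMod (p ^ 2) | (ZMod.castHom (dvd_pow_self p two_ne_zero) (ZMod p)) y ∈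
          Tp ℓ p s t}.ncard
        obtain ⟨r, hr⟩ : ∃ r, Fintype.card ι = r + 2 := by
          have h6 : 2 ≤ Fintype.card ι := by
            have h7 : ({l, l'} : Finset ι).card = 2 := Finset.card_pair hl
            rw [← h7]
            exact Finset.card_le_univ _
          exact ⟨Fintype.card ι - 2, by omega⟩
        rw [hr, Nat.add_sub_cancel] at h2
        have h6 : ((S1 : ℝ) * T2) * ((p : ℝ) ^ 2) ^ r ≤
            ({x : ι → ZMod (p ^ 2) | x l ∈ Sp p ∧ x l' ∈ {y |
              (ZMod.castHom (dvd_pow_self p two_ne_zero) (ZMod p)) y ∈ Tp ℓ p s t}}.ncard : ℝ) := by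
          have h7 := (Nat.cast_le (α := ℝ)).2 h2
          push_cast at h7
          exact h7
        refine le_trans ?_ h6
        rw [hr, pow_add]
        have hp2 : (2 : ℝ) ≤ p := by exact_mod_cast hp.two_le
        have hp0 : (p : ℝ) ≠ 0 := by positivity
        push_cast
        have e : 1 / 12 * (1 / (p : ℝ)) * (((p : ℝ) ^ 2) ^ r * ((p : ℝ) ^ 2) ^ 2) =
            ((p : ℝ) ^ 3 / 12) * ((p : ℝ) ^ 2) ^ r := by
          field_simp
        rw [e]
        refine mul_le_mul_of_nonneg_right ?_ (by positivity)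
        have h3' : (p : ℝ) - 1 ≤ S1 := by
          have := (Nat.cast_le (α := ℝ)).2 h3
          rwa [Nat.cast_sub hp.one_le, Nat.cast_one] at this
        have h4' : (p : ℝ) * T1 ≤ T2 := by
          have := (Nat.cast_le (α := ℝ)).2 h4
          push_cast at this
          exact this
        have h5' : (p : ℝ) - 1 ≤ 3 * T1 := by
          have := (Nat.cast_le (α := ℝ)).2 h5
          rw [Nat.cast_sub hp.one_le, Nat.cast_one] at this
          push_cast at this
          exact this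
        have h8 : (p : ℝ) * ((p - 1) / 3) ≤ T2 :=
          le_trans (mul_le_mul_of_nonneg_left (by linarith) (by linarith)) h4'
        have h9 : ((p : ℝ) - 1) * ((p : ℝ) * ((p - 1) / 3)) ≤ S1 * T2 :=
          mul_le_mul h3' h8 (by nlinarith) (by positivity)
        refine le_trans ?_ h9
        nlinarith [mul_nonneg (mul_nonneg (by linarith : (0 : ℝ) ≤ p) (by linarith : (0 : ℝ) ≤ p - 2))
          (by linarith : (0 : ℝ) ≤ 3 * p - 2)]
      · simp only [if_neg hn]
        rw [zero_mul]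
        positivity)
  refine pronull_mono' ?_ h
  intro c hc p hp _ hmem
  by_cases hn : (p : ZMod M) = 1
  · rw [if_pos hn] at hmem
    have hpf : Fact p.Prime := ⟨hp⟩
    obtain ⟨k1, k2, k3, k4, hd, hs0, ht0, -⟩ := prime_facts hp hℓ hs ht (hdvd p hp hn)
    obtain ⟨m1, m2⟩ := hmem
    have m3 := (mem_Sp hp (c l)).1 m1
    have m4 : (c l' : ZMod p) ∈ Tp ℓ p s t := by
      have e : (ZMod.castHom (dvd_pow_self p two_ne_zero) (ZMod p)) (c l' : ZMod (p ^ 2)) =
          (c l' : ZMod p) := map_intCast _ _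
      rw [← e]
      exact m2
    obtain ⟨n1, n2, n3⟩ := m4
    have hx : ∀ u : ℤ, (u : ZMod p) ≠ 0 → (((u * c l' ^ (ℓ - 1) : ℤ)) : ZMod p) ≠ 0 := by
      intro u hu
      push_cast
      exact mul_ne_zero hu (pow_ne_zero _ n1)
    refine hc ⟨p, hp, k1, k2, k3, k4, ?_, ⟨hx s hs0, hd, ?_⟩, ⟨hx t ht0, hd, ?_⟩, m3.1, m3.2⟩
    · rw [← ZMod.intCast_zmod_eq_zero_iff_dvd]
      exact n1
    · push_cast
      exact n2
    · push_cast
      exact n3
  · rw [if_neg hn] at hmem
    exact hmem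

end Pool.Agent.N53.KM
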